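import Mathlib

/-!
# Finite subgroups of `GL(4, ℤ)`: elements of order 5
-/

open Matrix Polynomial

namespace Pool.Agent.H51.Poinc

/-- First terms of the binomial expansion. -/
theorem one_add_pow_eq {R : Type*} [Ring R] (N : R) (m : ℕ) :
    ∃ S : R, (1 + N) ^ m = 1 + m • N + N * N * S := by
  induction m with
  | zero => exact ⟨0, by simp⟩
  | succ m ih =>
    obtain ⟨S, hS⟩ := ih
    refine ⟨S + m • 1 + S * N, ?_⟩
    rw [pow_succ, hS]
    simp only [succ_nsmul, nsmul_eq_mul, mul_one]
    have hc : ∀ x : R, (m : R) * x = x * (m : R) := fun x => (Nat.cast_commute m x)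
    rw [hc N]
    noncomm_ring
    rw [hc N]
    abel

/-- An integer matrix of finite order prime to 3 which is trivial mod 3 is trivial. -/
theorem eq_one_of_mod3 {n : Type*} [Fintype n] [DecidableEq n] (A : Matrix n n ℤ) (m : ℕ)
    (hm : ¬ 3 ∣ m) (hA : A ^ m = 1) (h3 : ∀ i j, (3 : ℤ) ∣ (A - 1) i j) : A = 1 := by
  set N := A - 1 with hN
  have hA' : A = 1 + N := by rw [hN]; abel
  obtain ⟨S, hS⟩ := one_add_pow_eq N m
  rw [← hA', hA] at hS
  have hrel : (m : ℤ) • N = -(N * N * S) := by
    have h1 : m • N + N * N * S = 0 := by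
      have : (1 : Matrix n n ℤ) + (m • N + N * N * S) = 1 + 0 := by
        rw [add_zero, ← add_assoc]; exact hS.symm
      exact add_left_cancel this
    rw [natCast_zsmul]
    exact eq_neg_of_add_eq_zero_left h1
  have key : ∀ k : ℕ, ∀ i j, (3 : ℤ) ^ (k + 1) ∣ N i j := by
    intro k
    induction k with
    | zero => intro i j; simpa using h3 i j
    | succ k ih =>
      intro i j
      have h1 : (3 : ℤ) ^ (k + 1 + 1) ∣ (m : ℤ) * N i j := by
        have h2 : (m : ℤ) * N i j = -((N * N * S) i j) := by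
          have := congrFun (congrFun hrel i) j
          simpa using this
        rw [h2, dvd_neg, Matrix.mul_apply]
        refine Finset.dvd_sum fun l _ => Dvd.dvd.mul_right ?_ _
        rw [Matrix.mul_apply]
        refine Finset.dvd_sum fun l' _ => ?_
        have h3 : (3 : ℤ) ^ (k + 1) * 3 ^ (k + 1) ∣ N i l' * N l' l :=
          mul_dvd_mul (ih _ _) (ih _ _)
        refine dvd_trans ?_ h3
        rw [← pow_add]
        exact pow_dvd_pow _ (by omega)
      refine (IsCoprime.dvd_of_dvd_mul_left ?_ h1)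
      apply IsCoprime.pow_left
      rw [Int.isCoprime_iff_gcd_eq_one]
      have : Nat.Coprime 3 m := (Nat.Prime.coprime_iff_not_dvd Nat.prime_three).mpr hm
      simpa [Int.gcd] using this
  have hN0 : N = 0 := by
    ext i j
    by_contra hne
    have h1 := key (N i j).natAbs i j
    have h2 : (3 : ℕ) ^ ((N i j).natAbs + 1) ∣ (N i j).natAbs := by
      have := Int.natAbs_dvd_natAbs.mpr h1
      simpa [Int.natAbs_pow] using this
    have h3 : 0 < (N i j).natAbs := Int.natAbs_pos.mpr hne
    have h4 := Nat.le_of_dvd h3 h2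
    have h5 : (N i j).natAbs + 1 < 3 ^ ((N i j).natAbs + 1) := Nat.lt_pow_self (by norm_num)
    omega
  rw [hA', hN0, add_zero]

/-- Reduction mod 3. -/
noncomputable def red3 : GL (Fin 4) ℤ →* GL (Fin 4) (ZMod 3) :=
  Matrix.GeneralLinearGroup.map (Int.castRingHom (ZMod 3))

theorem eq_one_of_red3 (g : GL (Fin 4) ℤ) (m : ℕ) (hm : ¬ 3 ∣ m) (hg : g ^ m = 1)
    (h : red3 g = 1) : g = 1 := by
  apply Units.ext
  apply eq_one_of_mod3 _ m hm
  · have := congrArg Units.val hg
    simpa using this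
  · intro i j
    have h1 : ((red3 g : GL (Fin 4) (ZMod 3)) : Matrix (Fin 4) (Fin 4) (ZMod 3)) i j
        = (1 : Matrix (Fin 4) (Fin 4) (ZMod 3)) i j := by rw [h]; rfl
    have h2 : ((red3 g : GL (Fin 4) (ZMod 3)) : Matrix (Fin 4) (Fin 4) (ZMod 3)) i j
        = (((g : Matrix (Fin 4) (Fin 4) ℤ) i j : ℤ) : ZMod 3) := rfl
    rw [h2] at h1
    have h4 : ((((g : Matrix (Fin 4) (Fin 4) ℤ) - 1) i j : ℤ) : ZMod 3) = 0 := by
      rw [Matrix.sub_apply, Int.cast_sub, h1]
      by_cases hij : i = j
      · subst hij; simp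
      · simp [Matrix.one_apply_ne hij]
    have := (ZMod.intCast_zmod_eq_zero_iff_dvd _ 3).mp h4
    exact_mod_cast this

theorem card_GL4F3 : Nat.card (GL (Fin 4) (ZMod 3)) = 24261120 := by
  rw [Matrix.card_GL_field]
  simp [Fin.prod_univ_succ, ZMod.card]

/-- The order of a finite subgroup of `GL(4, ℤ)` is not divisible by 25. -/
theorem not_25_dvd (G : Subgroup (GL (Fin 4) ℤ)) [Finite G] : ¬ 25 ∣ Nat.card G := by
  intro h
  have : Fact (Nat.Prime 5) := ⟨Nat.prime_five⟩
  obtain ⟨Q, hQ⟩ := Sylow.exists_subgroup_card_pow_prime (G := G) 5 (n := 2) (by simpa using h)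
  let f : Q →* GL (Fin 4) (ZMod 3) := (red3.comp G.subtype).comp Q.subtype
  have hf : Function.Injective f := by
    rw [injective_iff_map_eq_one]
    intro a ha
    have h1 : ((a : G) : GL (Fin 4) ℤ) ^ 25 = 1 := by
      have : a ^ 25 = 1 := by
        have := pow_card_eq_one' (x := a)
        rwa [hQ] at this
      have h2 := congrArg (fun x : Q => ((x : G) : GL (Fin 4) ℤ)) this
      simpa using h2
    have h2 := eq_one_of_red3 _ 25 (by norm_num) h1 ha
    exact Subtype.ext (Subtype.ext h2)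
  have h1 : Nat.card Q ∣ Nat.card (GL (Fin 4) (ZMod 3)) := by
    have h2 : Nat.card Q = Nat.card f.range := Nat.card_congr (MonoidHom.ofInjective hf).toEquiv
    rw [h2]
    exact Subgroup.card_subgroup_dvd_card _
  rw [hQ, card_GL4F3] at h1
  norm_num at h1

end Pool.Agent.H51.Poinc
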