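import Pool.Agent.H51.Poinc.Alg

/-!
# If `h g h⁻¹ = g⁻¹` with `g` of order 5 and `h` of finite order in `GL(4, ℤ)`, then `h² = 1`.
-/

open Matrix Polynomial

namespace Pool.Agent.H51.Poinc

/-- The characteristic polynomial of an element of order 5 of `GL(4, ℚ)`. -/
theorem charpoly_eq_cyclotomic (A : Matrix (Fin 4) (Fin 4) ℚ) (h5 : A ^ 5 = 1) (h1 : A ≠ 1) :
    A.charpoly = cyclotomic 5 ℚ := by
  have : Fact (Nat.Prime 5) := ⟨Nat.prime_five⟩
  have hX : (X ^ 5 - 1 : ℚ[X]) = cyclotomic 5 ℚ * (X - 1) := by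
    rw [Polynomial.cyclotomic_prime_mul_X_sub_one]
  have hmin : minpoly ℚ A ∣ X ^ 5 - 1 := by
    apply minpoly.dvd
    simp [h5]
  have hirr : Irreducible (cyclotomic 5 ℚ) := cyclotomic.irreducible_rat (by norm_num)
  have hdvd : cyclotomic 5 ℚ ∣ minpoly ℚ A := by
    by_contra hnd
    have hcop : IsCoprime (minpoly ℚ A) (cyclotomic 5 ℚ) :=
      ((hirr.coprime_iff_not_dvd).mpr hnd).symm
    have h2 : minpoly ℚ A ∣ X - 1 := by
      rw [hX] at hmin
      exact hcop.dvd_of_dvd_mul_left hmin
    obtain ⟨q, hq⟩ := h2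
    have h3 : aeval A (X - 1 : ℚ[X]) = 0 := by
      rw [hq, map_mul, minpoly.aeval, zero_mul]
    apply h1
    have : A - 1 = 0 := by simpa using h3
    exact sub_eq_zero.mp this
  have h4 : cyclotomic 5 ℚ ∣ A.charpoly := hdvd.trans (Matrix.minpoly_dvd_charpoly A)
  have h5' : A.charpoly.natDegree = (cyclotomic 5 ℚ).natDegree := by
    rw [Matrix.charpoly_natDegree_eq_dim, natDegree_cyclotomic]
    decide
  exact Polynomial.eq_of_monic_of_dvd_of_natDegree_le (cyclotomic.monic 5 ℚ)
    (Matrix.charpoly_monic A) h4 h5'.le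

/-- The complexification of an integral matrix. -/
noncomputable def toC (A : Matrix (Fin 4) (Fin 4) ℤ) : Matrix (Fin 4) (Fin 4) ℂ :=
  A.map (Int.castRingHom ℂ)

theorem toC_mul (A B : Matrix (Fin 4) (Fin 4) ℤ) : toC (A * B) = toC A * toC B := by
  exact Matrix.map_mul

theorem toC_one : toC 1 = 1 := by
  simp [toC]

theorem toC_pow (A : Matrix (Fin 4) (Fin 4) ℤ) (n : ℕ) : toC (A ^ n) = toC A ^ n := by
  induction n with
  | zero => simp [toC_one]
  | succ n ih => rw [pow_succ, toC_mul, ih, pow_succ]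

theorem toC_injective : Function.Injective toC := by
  intro A B h
  ext i j
  have := congrFun (congrFun h i) j
  simpa [toC] using this

theorem toC_star (A : Matrix (Fin 4) (Fin 4) ℤ) (x : Fin 4 → ℂ) :
    toC A *ᵥ (star x) = star (toC A *ᵥ x) := by
  ext i
  simp only [Matrix.mulVec, dotProduct, Pi.star_apply, star_sum, star_mul', toC, Matrix.map_apply]
  refine Finset.sum_congr rfl fun j _ => ?_
  simp

/-- Every primitive fifth root of unity is an eigenvalue. -/
theorem exists_eigen (A : Matrix (Fin 4) (Fin 4) ℤ) (h5 : A ^ 5 = 1) (h1 : A ≠ 1) (ζ : ℂ)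
    (hζ : IsPrimitiveRoot ζ 5) :
    Module.End.HasEigenvalue (Matrix.toLin' (toC A)) ζ := by
  rw [Module.End.hasEigenvalue_iff_isRoot_charpoly, Matrix.charpoly_toLin']
  have e1 : toC A = ((A.map (Int.castRingHom ℚ)).map (algebraMap ℚ ℂ)) := by
    ext i j
    simp [toC]
  have h5' : (A.map (Int.castRingHom ℚ)) ^ 5 = 1 := by
    have : (A.map (Int.castRingHom ℚ)) ^ 5 = (A ^ 5).map (Int.castRingHom ℚ) := by
      have := (map_pow (Int.castRingHom ℚ).mapMatrix A 5).symm
      simpa using this
    rw [this, h5]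
    simp
  have h1' : (A.map (Int.castRingHom ℚ)) ≠ 1 := by
    intro h
    apply h1
    ext i j
    have := congrFun (congrFun h i) j
    by_cases hij : i = j
    · subst hij
      rw [Matrix.map_apply, Matrix.one_apply_eq] at this
      rw [Matrix.one_apply_eq]
      have h2 : ((A i i : ℤ) : ℚ) = 1 := this
      exact_mod_cast h2
    · rw [Matrix.one_apply_ne hij, Matrix.map_apply] at this
      rw [Matrix.one_apply_ne hij]
      have h2 : ((A i j : ℤ) : ℚ) = 0 := this
      exact_mod_cast h2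
  rw [e1, Matrix.charpoly_map, charpoly_eq_cyclotomic _ h5' h1', map_cyclotomic]
  exact hζ.isRoot_cyclotomic (by norm_num)

theorem sq_eq_one_matrix (A B : Matrix (Fin 4) (Fin 4) ℤ) (h5 : A ^ 5 = 1) (h1 : A ≠ 1)
    (hAB : A * B * A = B) (n : ℕ) (hn : n ≠ 0) (hB : B ^ n = 1) : B ^ 2 = 1 := by
  classical
  set M := toC A with hM
  set H := toC B with hH
  have hMH : M * H * M = H := by rw [hM, hH, ← toC_mul, ← toC_mul, hAB]
  have hHn : H ^ n = 1 := by rw [hH, ← toC_pow, hB, toC_one]
  -- the eigenvalues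
  have hprim : IsPrimitiveRoot (Complex.exp (2 * Real.pi * Complex.I / (5 : ℕ))) 5 :=
    Complex.isPrimitiveRoot_exp 5 (by norm_num)
  set ζ := Complex.exp (2 * Real.pi * Complex.I / (5 : ℕ)) with hζdef
  let μ : Fin 4 → ℂ := fun i => ζ ^ ((i : ℕ) + 1)
  have hμprim : ∀ i, IsPrimitiveRoot (μ i) 5 := by
    intro i
    apply hprim.pow_of_coprime
    fin_cases i <;> decide
  have hμinj : Function.Injective μ := by
    intro i j hij
    have := hprim.pow_inj (i := (i : ℕ) + 1) (j := (j : ℕ) + 1) (by omega) (by omega) hij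
    apply Fin.ext
    omega
  have hex : ∀ i, ∃ v, Module.End.HasEigenvector (Matrix.toLin' M) (μ i) v := fun i =>
    (exists_eigen A h5 h1 (μ i) (hμprim i)).exists_hasEigenvector
  choose v hv using hex
  have hli : LinearIndependent ℂ v :=
    Module.End.eigenvectors_linearIndependent' _ μ hμinj v hv
  let b := basisOfLinearIndependentOfCardEqFinrank hli (by simp)
  have hb : ∀ i, b i = v i := fun i => by simp [b]
  have hMv : ∀ i, M *ᵥ v i = μ i • v i := fun i => by
    have := (hv i).apply_eq_smul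
    simpa using this
  -- eigenspaces are lines
  have hline : ∀ i (y : Fin 4 → ℂ), M *ᵥ y = μ i • y → ∃ c : ℂ, y = c • v i := by
    intro i y hy
    have hrep := b.sum_repr y
    have h2 : ∑ j, (b.repr y j * (μ j - μ i)) • b j = 0 := by
      have h3 : M *ᵥ y = ∑ j, (b.repr y j * μ j) • b j := by
        conv_lhs => rw [← hrep]
        rw [Matrix.mulVec_sum]
        refine Finset.sum_congr rfl fun j _ => ?_
        rw [Matrix.mulVec_smul, hb, hMv, smul_smul]
      have h4 : μ i • y = ∑ j, (b.repr y j * μ i) • b j := by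
        conv_lhs => rw [← hrep]
        rw [Finset.smul_sum]
        refine Finset.sum_congr rfl fun j _ => ?_
        rw [smul_smul, mul_comm]
      have h5 : M *ᵥ y - μ i • y = 0 := by rw [hy, sub_self]
      rw [h3, h4, ← Finset.sum_sub_distrib] at h5
      rw [← h5]
      refine Finset.sum_congr rfl fun j _ => ?_
      rw [← sub_smul, mul_sub]
    have h6 := Fintype.linearIndependent_iff.mp b.linearIndependent _ h2
    refine ⟨b.repr y i, ?_⟩
    conv_lhs => rw [← hrep]
    rw [Finset.sum_eq_single i, hb]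
    · intro j _ hji
      have h7 := h6 j
      rcases mul_eq_zero.mp h7 with h8 | h8
      · rw [h8, zero_smul]
      · exact absurd (hμinj (sub_eq_zero.mp h8)) hji
    · simp
  -- on each line H^2 is a positive real scalar
  have hM5 : ∀ i, M *ᵥ (star (v i)) = star (μ i) • star (v i) := by
    intro i
    rw [hM, toC_star, ← hM, hMv]
    ext j
    simp
  have hstar : ∀ i, star (μ i) * μ i = 1 := by
    intro i
    have h7 : ‖μ i‖ = 1 := (hμprim i).norm'_eq_one (by norm_num)
    have h8 := Complex.conj_mul' (μ i)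
    rw [h7] at h8
    simpa using h8
  have hsq : ∀ i, H *ᵥ (H *ᵥ v i) = v i := by
    intro i
    have hne : v i ≠ 0 := (hv i).2
    -- H v lies in the eigenspace of star μ
    have h9 : M *ᵥ (H *ᵥ v i) = star (μ i) • (H *ᵥ v i) := by
      have h10 : M *ᵥ (H *ᵥ (M *ᵥ v i)) = H *ᵥ v i := by
        rw [Matrix.mulVec_mulVec, Matrix.mulVec_mulVec, hMH]
      rw [hMv, Matrix.mulVec_smul, Matrix.mulVec_smul] at h10
      calc M *ᵥ (H *ᵥ v i) = (star (μ i) * μ i) • (M *ᵥ (H *ᵥ v i)) := by
            rw [hstar, one_smul]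
        _ = star (μ i) • (H *ᵥ v i) := by rw [mul_smul, h10]
    -- the index of star μ
    obtain ⟨i', hi'⟩ : ∃ i', star (μ i) = μ i' := by
      have h11 : star (μ i) = (μ i)⁻¹ := eq_inv_of_mul_eq_one_left (hstar i)
      have h12 : IsPrimitiveRoot (star (μ i)) 5 := by
        rw [h11]
        exact (hμprim i).inv
      obtain ⟨k, hk, hk'⟩ := hprim.eq_pow_of_pow_eq_one h12.pow_eq_one
      have hk0 : k ≠ 0 := by
        rintro rfl
        rw [pow_zero] at hk'
        rw [← hk'] at h12
        have := h12.unique IsPrimitiveRoot.one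
        omega
      refine ⟨⟨k - 1, by omega⟩, ?_⟩
      rw [← hk']
      show ζ ^ k = ζ ^ (k - 1 + 1)
      congr 1
      omega
    rw [hi'] at h9
    obtain ⟨c1, hc1⟩ := hline i' _ h9
    have h13 := hM5 i
    rw [hi'] at h13
    obtain ⟨c2, hc2⟩ := hline i' _ h13
    have hc20 : c2 ≠ 0 := by
      rintro rfl
      rw [zero_smul] at hc2
      apply hne
      have := congrArg star hc2
      simpa using this
    -- H v = c • star v
    have h14 : H *ᵥ v i = (c1 / c2) • star (v i) := by
      rw [hc1, hc2, smul_smul, div_mul_cancel₀ _ hc20]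
    set c := c1 / c2 with hc
    have h15 : H *ᵥ star (v i) = star c • v i := by
      rw [hH, toC_star, ← hH, h14]
      ext j
      simp
    have h16 : H *ᵥ (H *ᵥ v i) = (((‖c‖ ^ 2 : ℝ) : ℂ)) • v i := by
      rw [h14, Matrix.mulVec_smul, h15, smul_smul]
      congr 1
      have := Complex.mul_conj' c
      push_cast
      exact this
    have h17 : ∀ m : ℕ, (H ^ (2 * m)) *ᵥ v i = (((‖c‖ ^ 2) ^ m : ℝ) : ℂ) • v i := by
      intro m
      induction m with
      | zero => simp
      | succ m ih =>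
        have hH2 : H ^ 2 *ᵥ v i = H *ᵥ (H *ᵥ v i) := by
          rw [pow_two, Matrix.mulVec_mulVec]
        rw [show 2 * (m + 1) = 2 + 2 * m by ring, pow_add, ← Matrix.mulVec_mulVec, ih,
          Matrix.mulVec_smul, hH2, h16, smul_smul]
        congr 1
        push_cast
        ring
    have h18 := h17 n
    rw [mul_comm 2 n, pow_mul, hHn, one_pow, Matrix.one_mulVec] at h18
    have h19 : (((‖c‖ ^ 2) ^ n : ℝ) : ℂ) = 1 := by
      have h20 : ((((‖c‖ ^ 2) ^ n : ℝ) : ℂ) - 1) • v i = 0 := by
        rw [sub_smul, ← h18, one_smul, sub_self]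
      rcases smul_eq_zero.mp h20 with h21 | h21
      · exact sub_eq_zero.mp h21
      · exact absurd h21 hne
    have h22 : (‖c‖ ^ 2) ^ n = 1 := by exact_mod_cast h19
    have h23 : ‖c‖ ^ 2 = 1 := (pow_eq_one_iff_of_nonneg (by positivity) hn).mp h22
    rw [h16, h23]
    simp
  apply toC_injective
  rw [toC_pow, toC_one, ← hH]
  have h24 : Matrix.toLin' (H ^ 2) = Matrix.toLin' 1 := by
    apply b.ext
    intro i
    rw [hb, Matrix.toLin'_apply, pow_two, ← Matrix.mulVec_mulVec, hsq, Matrix.toLin'_one]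
    rfl
  exact Matrix.toLin'.injective h24

end Pool.Agent.H51.Poinc
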