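import Pool.Agent.H51.Poinc.Cx

/-!
# `SL(2, 5)` is not a quotient of a finite subgroup of `GL(4, ℤ)`
-/

open scoped MatrixGroups
open Matrix (SpecialLinearGroup)

namespace Pool.Agent.H51.Poinc

theorem sq_eq_one_GL (g h : GL (Fin 4) ℤ) (h5 : g ^ 5 = 1) (h1 : g ≠ 1)
    (hgh : h * g * h⁻¹ = g⁻¹) (n : ℕ) (hn : n ≠ 0) (hh : h ^ n = 1) : h ^ 2 = 1 := by
  apply Units.ext
  rw [Units.val_pow_eq_pow_val, Units.val_one]
  refine sq_eq_one_matrix (g : Matrix (Fin 4) (Fin 4) ℤ) h ?_ ?_ ?_ n hn ?_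
  · rw [← Units.val_pow_eq_pow_val, h5, Units.val_one]
  · intro h2
    exact h1 (Units.ext h2)
  · have h3 : g * h * g = h := by
      have h4 : h * g = g⁻¹ * h := by rw [← hgh]; group
      rw [mul_assoc, h4]; group
    rw [← Units.val_mul, ← Units.val_mul, h3]
  · rw [← Units.val_pow_eq_pow_val, hh, Units.val_one]

/-- the order 5 element of `SL(2, 5)`. -/
def uu : SpecialLinearGroup (Fin 2) (ZMod 5) := ⟨!![1, 1; 0, 1], by decide⟩

/-- the order 4 element of `SL(2, 5)`. -/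
def ww : SpecialLinearGroup (Fin 2) (ZMod 5) := ⟨!![2, 0; 0, 3], by decide⟩

theorem uu_pow5 : uu ^ 5 = 1 := by decide
theorem uu_ne : uu ≠ 1 := by decide
theorem ww_uu : ww * uu * ww⁻¹ = uu⁻¹ := by decide
theorem ww_sq_ne : ww ^ 2 ≠ 1 := by decide

theorem orderOf_uu : orderOf uu = 5 := by
  have : Fact (Nat.Prime 5) := ⟨Nat.prime_five⟩
  exact orderOf_eq_prime uu_pow5 uu_ne

/-- `SL(2, 5)` is not a quotient of any finite subgroup of `GL(4, ℤ)`. -/
theorem no_surj (G : Subgroup (GL (Fin 4) ℤ)) [Finite G]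
    (φ : G →* SpecialLinearGroup (Fin 2) (ZMod 5)) : ¬ Function.Surjective φ := by
  intro hφ
  have hp : Fact (Nat.Prime 5) := ⟨Nat.prime_five⟩
  -- the kernel has order prime to 5
  have hker : ¬ 5 ∣ Nat.card φ.ker := by
    intro h5
    apply not_25_dvd G
    have h6 : Nat.card G = Nat.card φ.ker * Nat.card φ.range := by
      rw [mul_comm]
      have := φ.ker.card_eq_card_quotient_mul_card_subgroup
      rw [this]
      congr 1
      exact Nat.card_congr (QuotientGroup.quotientKerEquivRange φ).toEquiv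
    have h7 : 5 ∣ Nat.card φ.range := by
      rw [MonoidHom.range_eq_top.mpr hφ]
      have : orderOf uu ∣ Nat.card (SpecialLinearGroup (Fin 2) (ZMod 5)) := orderOf_dvd_natCard uu
      rw [orderOf_uu] at this
      rwa [Subgroup.card_top]
    rw [h6]
    exact mul_dvd_mul h5 h7
  have hinj5 : ∀ a : G, a ^ 5 = 1 → φ a = 1 → a = 1 := by
    intro a ha1 ha2
    by_contra hne
    apply hker
    have h8 : orderOf (⟨a, ha2⟩ : φ.ker) = 5 := by
      apply orderOf_eq_prime
      · apply Subtype.ext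
        simpa using ha1
      · intro h
        exact hne (congrArg Subtype.val h)
    have h9 := orderOf_dvd_natCard (⟨a, ha2⟩ : φ.ker)
    rwa [h8] at h9
  -- the preimage of the cyclic group generated by uu
  let K : Subgroup G := (Subgroup.zpowers uu).comap φ
  obtain ⟨g0, hg0⟩ := hφ uu
  have hg0K : g0 ∈ K := by
    show φ g0 ∈ Subgroup.zpowers uu
    rw [hg0]
    exact Subgroup.mem_zpowers uu
  have hKcard : 5 ∣ Nat.card K := by
    have h9 : 5 ∣ orderOf (⟨g0, hg0K⟩ : K) := by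
      have h10 : orderOf (φ g0) ∣ orderOf g0 := orderOf_map_dvd φ g0
      rw [hg0, orderOf_uu] at h10
      have h11 : orderOf (⟨g0, hg0K⟩ : K) = orderOf g0 := by
        rw [← Subgroup.orderOf_coe]
      rw [h11]
      exact h10
    exact h9.trans (orderOf_dvd_natCard _)
  have hK25 : ¬ 5 ^ 2 ∣ Nat.card K := by
    intro h
    exact not_25_dvd G ((by simpa using h : 25 ∣ Nat.card K).trans
      (Subgroup.card_subgroup_dvd_card K))
  have hfac : (Nat.card K).factorization 5 = 1 := by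
    have hne : Nat.card K ≠ 0 := Nat.card_pos.ne'
    have h12 := (Nat.prime_five.dvd_iff_one_le_factorization hne).mp hKcard
    have h13 : ¬ 2 ≤ (Nat.card K).factorization 5 := by
      intro h
      exact hK25 ((Nat.prime_five.pow_dvd_iff_le_factorization hne).mpr h)
    omega
  obtain ⟨g, hg⟩ := exists_prime_orderOf_dvd_card' (G := K) 5 hKcard
  have hg5 : g ^ 5 = 1 := by rw [← hg]; exact pow_orderOf_eq_one g
  have hg1 : g ≠ 1 := by
    rintro rfl
    rw [orderOf_one] at hg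
    omega
  have hgG5 : ((g : G)) ^ 5 = 1 := by
    have := congrArg (fun x : K => (x : G)) hg5
    simpa using this
  have hgG1 : (g : G) ≠ 1 := fun h => hg1 (Subtype.ext h)
  obtain ⟨j, hj⟩ := Subgroup.mem_zpowers_iff.mp g.2
  -- a lift of ww
  obtain ⟨h0, hh0⟩ := hφ ww
  have hconj : ∀ i : ℤ, ww * uu ^ i * ww⁻¹ = uu ^ (-i) := by
    intro i
    rw [← conj_zpow, ww_uu, inv_zpow, zpow_neg]
  have hφ1 : φ (h0 * g * h0⁻¹) = uu ^ (-j) := by
    rw [map_mul, map_mul, map_inv, hh0, ← hj, hconj]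
  have hg'K : h0 * g * h0⁻¹ ∈ K := by
    show φ _ ∈ Subgroup.zpowers uu
    rw [hφ1]
    exact Subgroup.zpow_mem_zpowers _ _
  let g' : K := ⟨h0 * g * h0⁻¹, hg'K⟩
  have hg'ord : orderOf g' = 5 := by
    apply orderOf_eq_prime
    · apply Subtype.ext
      show (h0 * (g : G) * h0⁻¹) ^ 5 = 1
      rw [conj_pow, hgG5]
      group
    · intro h
      have h14 : h0 * (g : G) * h0⁻¹ = 1 := congrArg Subtype.val h
      apply hgG1
      have := conj_eq_one_iff.mp h14
      exact this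
  -- Sylow subgroups
  let P : Sylow 5 K := Sylow.ofCard (Subgroup.zpowers g) (by
    rw [Nat.card_zpowers, hg, hfac, pow_one])
  let P' : Sylow 5 K := Sylow.ofCard (Subgroup.zpowers g') (by
    rw [Nat.card_zpowers, hg'ord, hfac, pow_one])
  obtain ⟨κ, hκ⟩ := MulAction.exists_smul_eq K P' P
  have hmem : κ * g' * κ⁻¹ ∈ Subgroup.zpowers g := by
    have h15 : κ * g' * κ⁻¹ ∈ (κ • P' : Sylow 5 K) := by
      rw [Sylow.smul_def]
      exact Subgroup.smul_mem_pointwise_smul g' (MulAut.conj κ) _ (Subgroup.mem_zpowers g')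
    rw [hκ] at h15
    exact h15
  obtain ⟨i, hi⟩ := Subgroup.mem_zpowers_iff.mp hmem
  set h : G := (κ : G) * h0 with hhdef
  obtain ⟨l, hl⟩ := Subgroup.mem_zpowers_iff.mp κ.2
  have hrel : h * g * h⁻¹ = (g : G) ^ i := by
    have h16 := congrArg (fun x : K => (x : G)) hi
    simp only [Subgroup.coe_mul, Subgroup.coe_inv, Subgroup.coe_zpow] at h16
    rw [h16, hhdef]
    simp only [g']
    group
  have hrel2 : h * g * h⁻¹ = (g : G)⁻¹ := by
    -- both are elements of order dividing 5 in ⟨g⟩ with the same image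
    have h17 : φ ((g : G) ^ (i + 1)) = 1 := by
      rw [zpow_add, zpow_one, ← hrel, map_mul, map_mul, map_mul, map_inv, hhdef, map_mul,
        ← hl, hh0, ← hj]
      have h18 : uu ^ l * ww * uu ^ j * (uu ^ l * ww)⁻¹ = uu ^ (-j) := by
        have : uu ^ l * ww * uu ^ j * (uu ^ l * ww)⁻¹
            = uu ^ l * (ww * uu ^ j * ww⁻¹) * (uu ^ l)⁻¹ := by group
        rw [this, hconj, ← zpow_add, ← zpow_neg, ← zpow_add]
        congr 1
        ring
      rw [h18, ← zpow_add]
      simp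
    have h19 : ((g : G) ^ (i + 1)) ^ 5 = 1 := by
      rw [← zpow_natCast, ← zpow_mul, mul_comm, zpow_mul]
      have : (g : G) ^ (((5 : ℕ) : ℤ)) = 1 := by rw [zpow_natCast]; exact hgG5
      rw [this, one_zpow]
    have h20 := hinj5 _ h19 h17
    rw [hrel]
    rw [zpow_add, zpow_one] at h20
    exact eq_inv_of_mul_eq_one_left h20
  -- conclusion
  have hfin : (h : G) ^ (Nat.card G) = 1 := pow_card_eq_one'
  have hsq : h ^ 2 = 1 := by
    apply Subtype.ext
    have k1 : ((g : G) : GL (Fin 4) ℤ) ^ 5 = 1 := congrArg (fun x : G => (x : GL (Fin 4) ℤ)) hgG5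
    have k2 : (h : GL (Fin 4) ℤ) * ((g : G) : GL (Fin 4) ℤ) * (h : GL (Fin 4) ℤ)⁻¹
        = ((g : G) : GL (Fin 4) ℤ)⁻¹ := congrArg (fun x : G => (x : GL (Fin 4) ℤ)) hrel2
    have k3 : (h : GL (Fin 4) ℤ) ^ (Nat.card G) = 1 :=
      congrArg (fun x : G => (x : GL (Fin 4) ℤ)) hfin
    exact sq_eq_one_GL ((g : G) : GL (Fin 4) ℤ) (h : GL (Fin 4) ℤ) k1
      (fun h => hgG1 (Subtype.ext h)) k2 (Nat.card G) Nat.card_pos.ne' k3
  have hφh : φ (h ^ 2) = ww ^ 2 := by
    rw [map_pow, hhdef, map_mul, ← hl, hh0, pow_two, pow_two]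
    have h21 : uu ^ l * ww * (uu ^ l * ww) = uu ^ l * (ww * uu ^ l * ww⁻¹) * (ww * ww) := by group
    rw [h21, hconj, ← zpow_add]
    simp
  rw [hsq, map_one] at hφh
  exact ww_sq_ne hφh.symm

end Pool.Agent.H51.Poinc
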