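import Mathlib

/-!
# Lifting maps from `ℝ⁴ ∖ 0` through coverings
-/

open Set

namespace Pool.Agent.H51.Poinc

/-- four dimensional space -/
abbrev V4 := Fin 4 → ℝ

/-- the punctured space -/
abbrev X4 := {x : V4 // x ≠ 0}

/-- complement of the closed ray of direction `s • e₀`. -/
def UU (s : ℝ) : Set V4 := {x | ¬ (0 ≤ s * x 0 ∧ x 1 = 0 ∧ x 2 = 0 ∧ x 3 = 0)}

theorem isOpen_UU (s : ℝ) : IsOpen (UU s) := by
  have : UU s = {x : V4 | 0 ≤ s * x 0 ∧ x 1 = 0 ∧ x 2 = 0 ∧ x 3 = 0}ᶜ := rfl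
  rw [this, isOpen_compl_iff]
  refine IsClosed.and (isClosed_le continuous_const (by fun_prop)) ?_
  refine IsClosed.and (isClosed_eq (by fun_prop) continuous_const) ?_
  exact IsClosed.and (isClosed_eq (by fun_prop) continuous_const)
    (isClosed_eq (by fun_prop) continuous_const)

theorem starConvex_UU (s : ℝ) (hs : s * s = 1) : StarConvex ℝ (Pi.single 0 (-s) : V4) (UU s) := by
  intro y hy a b ha hb hab
  rintro ⟨h0, h1, h2, h3⟩
  simp only [Pi.add_apply, Pi.smul_apply, Pi.single_eq_same, smul_eq_mul] at h0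
  have e1 : (Pi.single 0 (-s) : V4) 1 = 0 := Pi.single_eq_of_ne (by decide) _
  have e2 : (Pi.single 0 (-s) : V4) 2 = 0 := Pi.single_eq_of_ne (by decide) _
  have e3 : (Pi.single 0 (-s) : V4) 3 = 0 := Pi.single_eq_of_ne (by decide) _
  simp only [Pi.add_apply, Pi.smul_apply, smul_eq_mul, e1, e2, e3, mul_zero, zero_add] at h1 h2 h3
  rcases hb.eq_or_lt with hb0 | hb0
  · subst hb0
    have ha1 : a = 1 := by linarith
    subst ha1
    nlinarith
  · apply hy
    refine ⟨?_, ?_, ?_, ?_⟩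
    · have h4 : 0 ≤ b * (s * y 0) := by nlinarith
      exact nonneg_of_mul_nonneg_right h4 hb0
    · exact (mul_eq_zero.mp h1).resolve_left hb0.ne'
    · exact (mul_eq_zero.mp h2).resolve_left hb0.ne'
    · exact (mul_eq_zero.mp h3).resolve_left hb0.ne'

/-- base point -/
noncomputable def x0 : V4 := Pi.single 1 1

theorem x0_mem (s : ℝ) : x0 ∈ UU s := by
  rintro ⟨-, h1, -, -⟩
  simp [x0] at h1

/-- the coordinate axis -/
def ax : Submodule ℝ V4 where
  carrier := {x | x 1 = 0 ∧ x 2 = 0 ∧ x 3 = 0}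
  add_mem' := by
    rintro a b ⟨h1, h2, h3⟩ ⟨h4, h5, h6⟩
    refine ⟨?_, ?_, ?_⟩ <;> simp_all
  zero_mem' := ⟨rfl, rfl, rfl⟩
  smul_mem' := by
    rintro c a ⟨h1, h2, h3⟩
    refine ⟨?_, ?_, ?_⟩ <;> simp_all

theorem inter_UU : UU 1 ∩ UU (-1) = ((ax : Submodule ℝ V4) : Set V4)ᶜ := by
  ext x
  constructor
  · rintro ⟨h1, h2⟩ ⟨h3, h4, h5⟩
    rcases le_total 0 (x 0) with h | h
    · exact h1 ⟨by linarith, h3, h4, h5⟩
    · exact h2 ⟨by linarith, h3, h4, h5⟩
  · intro h
    exact ⟨fun h1 => h h1.2, fun h1 => h h1.2⟩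

theorem ax_le : ax ≤ Submodule.span ℝ {(Pi.single 0 1 : V4)} := by
  rintro x ⟨h1, h2, h3⟩
  rw [Submodule.mem_span_singleton]
  refine ⟨x 0, ?_⟩
  ext i
  fin_cases i <;> simp_all

theorem isPreconnected_inter : IsPreconnected (UU 1 ∩ UU (-1)) := by
  rw [inter_UU]
  refine (isPathConnected_compl_of_one_lt_codim ?_).isConnected.isPreconnected
  have h1 : Module.finrank ℝ ax ≤ 1 := by
    refine (Submodule.finrank_mono ax_le).trans ?_
    refine (finrank_span_le_card _).trans ?_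
    simp
  have h2 := Submodule.finrank_quotient_add_finrank ax
  rw [Module.finrank_fin_fun] at h2
  have h3 : 1 < Module.finrank ℝ (V4 ⧸ ax) := by omega
  rw [← Module.finrank_eq_rank]
  exact_mod_cast h3

theorem mem_UU_or {x : V4} (hx : x ≠ 0) : x ∈ UU 1 ∨ x ∈ UU (-1) := by
  by_contra h
  push Not at h
  obtain ⟨h1, h2⟩ := h
  have h1' : 0 ≤ 1 * x 0 ∧ x 1 = 0 ∧ x 2 = 0 ∧ x 3 = 0 := by
    by_contra h; exact h1 h
  have h2' : 0 ≤ -1 * x 0 ∧ x 1 = 0 ∧ x 2 = 0 ∧ x 3 = 0 := by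
    by_contra h; exact h2 h
  apply hx
  ext i
  have h0 : x 0 = 0 := by linarith [h1'.1, h2'.1]
  fin_cases i
  · exact h0
  · exact h1'.2.1
  · exact h1'.2.2.1
  · exact h1'.2.2.2

theorem ne_zero_of_mem {s : ℝ} {x : V4} (hx : x ∈ UU s) : x ≠ 0 := by
  rintro rfl
  exact hx ⟨by simp, rfl, rfl, rfl⟩

theorem exists_lift {E B : Type*} [TopologicalSpace E] [TopologicalSpace B] {p : E → B}
    (hp : IsCoveringMap p) (hsurj : Function.Surjective p) (f : X4 → B) (hf : Continuous f) :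
    ∃ F : X4 → E, Continuous F ∧ ∀ x, p (F x) = f x := by
  classical
  have hx0 : x0 ≠ 0 := ne_zero_of_mem (x0_mem 1)
  obtain ⟨e0, he0⟩ := hsurj (f ⟨x0, hx0⟩)
  -- local lifts
  have key : ∀ s : ℝ, s * s = 1 → ∃ G : V4 → E, ContinuousOn G (UU s) ∧
      (∀ x (hx : x ∈ UU s), p (G x) = f ⟨x, ne_zero_of_mem hx⟩) ∧ G x0 = e0 := by
    intro s hs
    have hc : ContractibleSpace (UU s) := (starConvex_UU s hs).contractibleSpace ⟨x0, x0_mem s⟩
    have hsc : SimplyConnectedSpace (UU s) := SimplyConnectedSpace.ofContractible _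
    have hlp : LocallyPathConnectedSpace (UU s) := (isOpen_UU s).locallyPathConnectedSpace
    let fs : C(UU s, B) := ⟨fun x => f ⟨x.1, ne_zero_of_mem x.2⟩, by fun_prop⟩
    obtain ⟨F, ⟨hF1, hF2⟩, -⟩ := hp.existsUnique_continuousMap_lifts fs ⟨x0, x0_mem s⟩ e0 he0
    refine ⟨fun x => if h : x ∈ UU s then F ⟨x, h⟩ else e0, ?_, ?_, ?_⟩
    · rw [continuousOn_iff_continuous_domRestrict]
      have h1 : (UU s).domRestrict (fun x => if h : x ∈ UU s then F ⟨x, h⟩ else e0) = F := by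
        ext x
        rw [Set.domRestrict_apply, dif_pos x.2]
      rw [h1]
      exact F.continuous
    · intro x hx
      simp only [dif_pos hx]
      exact congrFun hF2 ⟨x, hx⟩
    · simp only [dif_pos (x0_mem s)]
      exact hF1
  obtain ⟨G1, hG1, hG1p, hG1x⟩ := key 1 (by norm_num)
  obtain ⟨G2, hG2, hG2p, hG2x⟩ := key (-1) (by norm_num)
  have hag : Set.EqOn G1 G2 (UU 1 ∩ UU (-1)) := by
    refine hp.eqOn_of_comp_eqOn isPreconnected_inter (hG1.mono inter_subset_left)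
      (hG2.mono inter_subset_right) ?_ (a := x0) ⟨x0_mem _, x0_mem _⟩ (hG1x.trans hG2x.symm)
    intro x hx
    simp only [Function.comp_apply]
    rw [hG1p x hx.1, hG2p x hx.2]
  let F : X4 → E := fun x => if x.1 ∈ UU 1 then G1 x.1 else G2 x.1
  have hF1 : ∀ x : X4, x.1 ∈ UU 1 → F x = G1 x.1 := fun x hx => if_pos hx
  have hF2 : ∀ x : X4, x.1 ∈ UU (-1) → F x = G2 x.1 := by
    intro x hx
    by_cases h : x.1 ∈ UU 1
    · rw [hF1 x h]
      exact hag ⟨h, hx⟩
    · exact if_neg h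
  refine ⟨F, ?_, ?_⟩
  · rw [continuous_iff_continuousAt]
    intro x
    rcases mem_UU_or x.2 with hx | hx
    · have h1 : ContinuousAt (fun y : X4 => G1 y.1) x :=
        ContinuousAt.comp (f := fun y : X4 => y.1) (g := G1)
          (hG1.continuousAt ((isOpen_UU 1).mem_nhds hx)) continuous_subtype_val.continuousAt
      refine h1.congr ?_
      have h2 : ∀ᶠ y : X4 in nhds x, y.1 ∈ UU 1 :=
        continuous_subtype_val.continuousAt.eventually_mem ((isOpen_UU 1).mem_nhds hx)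
      filter_upwards [h2] with y hy
      exact (hF1 y hy).symm
    · have h1 : ContinuousAt (fun y : X4 => G2 y.1) x :=
        ContinuousAt.comp (f := fun y : X4 => y.1) (g := G2)
          (hG2.continuousAt ((isOpen_UU (-1)).mem_nhds hx)) continuous_subtype_val.continuousAt
      refine h1.congr ?_
      have h2 : ∀ᶠ y : X4 in nhds x, y.1 ∈ UU (-1) :=
        continuous_subtype_val.continuousAt.eventually_mem ((isOpen_UU (-1)).mem_nhds hx)
      filter_upwards [h2] with y hy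
      exact (hF2 y hy).symm
  · intro x
    rcases mem_UU_or x.2 with hx | hx
    · rw [hF1 x hx, hG1p x.1 hx]
    · rw [hF2 x hx, hG2p x.1 hx]

theorem preconnected_X4 : PreconnectedSpace X4 := by
  have h : IsPreconnected ({x : V4 | x ≠ 0}) := by
    have := (isPathConnected_compl_singleton_of_one_lt_rank (E := V4) (by
      rw [← Module.finrank_eq_rank, Module.finrank_fin_fun]; norm_num) 0).isConnected.isPreconnected
    exact this
  exact isPreconnected_iff_preconnectedSpace.mp h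

end Pool.Agent.H51.Poinc
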