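import Pool.Agent.H51.Poinc.Grp
import Pool.Agent.H51.Poinc.Top

/-!
# Quotients of `ℝ⁴ ∖ 0` by finite groups of integral matrices
-/

open scoped Quaternion MatrixGroups
open Matrix (SpecialLinearGroup)

namespace Pool.Agent.H51.Poinc

/-- the linear action of an integral matrix on `ℝ⁴`. -/
noncomputable def act (g : GL (Fin 4) ℤ) (x : V4) : V4 :=
  Matrix.mulVec ((g : Matrix (Fin 4) (Fin 4) ℤ).map (Int.cast : ℤ → ℝ)) x

theorem act_one (x : V4) : act 1 x = x := by
  unfold act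
  have : ((1 : GL (Fin 4) ℤ) : Matrix (Fin 4) (Fin 4) ℤ).map (Int.cast : ℤ → ℝ) = 1 := by
    rw [Units.val_one]
    exact Matrix.map_one _ Int.cast_zero Int.cast_one
  rw [this, Matrix.one_mulVec]

theorem act_mul (g h : GL (Fin 4) ℤ) (x : V4) : act (g * h) x = act g (act h x) := by
  unfold act
  rw [Matrix.mulVec_mulVec]
  congr 1
  rw [Units.val_mul]
  exact Matrix.map_mul_intCast _ _

theorem act_smul (g : GL (Fin 4) ℤ) (c : ℝ) (x : V4) : act g (c • x) = c • act g x := by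
  unfold act
  rw [Matrix.mulVec_smul]

theorem act_ne (g : GL (Fin 4) ℤ) {x : V4} (hx : x ≠ 0) : act g x ≠ 0 := by
  intro h
  apply hx
  have h1 := act_mul g⁻¹ g x
  rw [inv_mul_cancel, act_one, h] at h1
  rw [h1]
  unfold act
  rw [Matrix.mulVec_zero]

theorem act_continuous (g : GL (Fin 4) ℤ) : Continuous (act g) := by
  unfold act
  fun_prop

/-- `x ~ y` iff `y = c • g x` with `g ∈ G` and `c > 0`. -/
def rel (G : Subgroup (GL (Fin 4) ℤ)) : Setoid X4 where
  r x y := ∃ g ∈ G, ∃ c : ℝ, 0 < c ∧ y.1 = c • act g x.1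
  iseqv := by
    constructor
    · intro x
      exact ⟨1, G.one_mem, 1, one_pos, by rw [act_one, one_smul]⟩
    · rintro x y ⟨g, hg, c, hc, h⟩
      refine ⟨g⁻¹, G.inv_mem hg, c⁻¹, inv_pos.mpr hc, ?_⟩
      rw [h, act_smul, ← act_mul, inv_mul_cancel, act_one, smul_smul, inv_mul_cancel₀ hc.ne',
        one_smul]
    · rintro x y z ⟨g, hg, c, hc, h⟩ ⟨g', hg', c', hc', h'⟩
      refine ⟨g' * g, G.mul_mem hg' hg, c' * c, mul_pos hc' hc, ?_⟩
      rw [h', h, act_smul, ← act_mul, smul_smul]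

theorem deck {E : Type*} [Group E] [TopologicalSpace E] [IsTopologicalGroup E] (Γ : Subgroup E)
    (hΓ : IsDiscrete (Γ : Set E)) (F : X4 → E) (hF : Continuous F) (a : X4 → X4)
    (ha : Continuous a) (h : ∀ x, (QuotientGroup.mk (F x) : E ⧸ Γ) = QuotientGroup.mk (F (a x))) :
    ∃ γ : Γ, ∀ x, F (a x) = F x * γ := by
  have hpre := preconnected_X4
  have hm : ∀ x, (F x)⁻¹ * F (a x) ∈ Γ := fun x => QuotientGroup.eq.mp (h x)
  have hc : Continuous fun x => (F x)⁻¹ * F (a x) := hF.inv.mul (hF.comp ha)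
  let x1 : X4 := ⟨x0, ne_zero_of_mem (x0_mem 1)⟩
  refine ⟨⟨(F x1)⁻¹ * F (a x1), hm x1⟩, fun x => ?_⟩
  have h1 := IsPreconnected.constant_of_mapsTo (isPreconnected_univ (α := X4)) hΓ
    hc.continuousOn (fun y _ => hm y) (Set.mem_univ x) (Set.mem_univ x1)
  change F (a x) = F x * ((F x1)⁻¹ * F (a x1))
  rw [← h1, mul_inv_cancel_left]

/-- The quotient map induces a surjection onto the group of the covering. -/
theorem exists_surj {E : Type*} [Group E] [TopologicalSpace E] [IsTopologicalGroup E]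
    [T2Space E] [PreconnectedSpace E] (Γ : Subgroup E) [Finite Γ] (G : Subgroup (GL (Fin 4) ℤ))
    (Φ : Quotient (rel G) ≃ₜ (E ⧸ Γ)) : ∃ φ : G →* Γ, Function.Surjective φ := by
  have hdisc : IsDiscrete (Γ : Set E) := by
    rw [isDiscrete_iff_discreteTopology]
    have : Finite ((Γ : Set E) : Type _) := inferInstanceAs (Finite Γ)
    infer_instance
  have hcov := (Γ.isQuotientCoveringMap hdisc).isCoveringMap
  obtain ⟨F, hFc, hF⟩ := exists_lift hcov QuotientGroup.mk_surjective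
    (fun x => Φ (Quotient.mk (rel G) x)) (Φ.continuous.comp continuous_quotient_mk')
  have hrel : ∀ x y : X4, (QuotientGroup.mk (F x) : E ⧸ Γ) = QuotientGroup.mk (F y) ↔
      ∃ g ∈ G, ∃ c : ℝ, 0 < c ∧ y.1 = c • act g x.1 := by
    intro x y
    rw [hF, hF, Φ.injective.eq_iff]
    exact Quotient.eq (r := rel G)
  -- scalars act trivially
  have hsc : ∀ (c : ℝ) (hc : 0 < c) (x : X4), F ⟨c • x.1, smul_ne_zero hc.ne' x.2⟩ = F x := by
    intro c hc x
    set n := Nat.card Γ with hn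
    have hn0 : n ≠ 0 := Nat.card_pos.ne'
    set d : ℝ := c ^ ((n : ℝ)⁻¹) with hd
    have hd0 : 0 < d := Real.rpow_pos_of_pos hc _
    have hdn : d ^ n = c := Real.rpow_inv_natCast_pow hc.le hn0
    obtain ⟨γ, hγ⟩ := deck Γ hdisc F hFc (fun y => ⟨d • y.1, smul_ne_zero hd0.ne' y.2⟩)
      (by fun_prop) (fun y => (hrel _ _).mpr ⟨1, G.one_mem, d, hd0, by rw [act_one]⟩)
    have hpow : ∀ m : ℕ, ∀ y : X4,
        F ⟨d ^ m • y.1, smul_ne_zero (pow_pos hd0 m).ne' y.2⟩ = F y * ((γ ^ m : Γ) : E) := by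
      intro m
      induction m with
      | zero =>
        intro y
        have : (⟨d ^ 0 • y.1, smul_ne_zero (pow_pos hd0 0).ne' y.2⟩ : X4) = y := by
          apply Subtype.ext
          change d ^ 0 • y.1 = y.1
          rw [pow_zero, one_smul]
        rw [this, pow_zero, Subgroup.coe_one, mul_one]
      | succ m ih =>
        intro y
        have h1 := ih ⟨d • y.1, smul_ne_zero hd0.ne' y.2⟩
        rw [hγ y] at h1
        have h2 : (⟨d ^ m • (d • y.1), smul_ne_zero (pow_pos hd0 m).ne'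
            (smul_ne_zero hd0.ne' y.2)⟩ : X4) =
            ⟨d ^ (m + 1) • y.1, smul_ne_zero (pow_pos hd0 (m + 1)).ne' y.2⟩ := by
          apply Subtype.ext
          change d ^ m • (d • y.1) = d ^ (m + 1) • y.1
          rw [smul_smul, pow_succ]
        rw [← h2]
        refine h1.trans ?_
        rw [pow_succ', Subgroup.coe_mul, mul_assoc]
    have h3 := hpow n x
    have h4 : γ ^ n = 1 := by rw [hn]; exact pow_card_eq_one'
    rw [h4, Subgroup.coe_one, mul_one] at h3
    rw [← h3]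
    congr 1
    apply Subtype.ext
    change c • x.1 = d ^ n • x.1
    rw [hdn]
  -- the action of `G`
  have hG : ∀ g : G, ∃ γ : Γ, ∀ x : X4, F ⟨act g x.1, act_ne _ x.2⟩ = F x * γ := by
    intro g
    exact deck Γ hdisc F hFc (fun y => ⟨act g y.1, act_ne _ y.2⟩)
      (((act_continuous g).comp continuous_subtype_val).subtype_mk _)
      (fun y => (hrel _ _).mpr ⟨g, g.2, 1, one_pos, by rw [one_smul]⟩)
  choose γ hγ using hG
  let x1 : X4 := ⟨x0, ne_zero_of_mem (x0_mem 1)⟩
  have hmul : ∀ g h : G, γ (g * h) = γ h * γ g := by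
    intro g h
    have h1 := hγ (g * h) x1
    have h2 : (⟨act ((g * h : G) : GL (Fin 4) ℤ) x1.1, act_ne _ x1.2⟩ : X4) =
        ⟨act g (act h x1.1), act_ne _ (act_ne _ x1.2)⟩ := by
      apply Subtype.ext
      change act ((g * h : G) : GL (Fin 4) ℤ) x1.1 = act g (act h x1.1)
      rw [Subgroup.coe_mul, act_mul]
    rw [h2] at h1
    have h3 := hγ g ⟨act h x1.1, act_ne _ x1.2⟩
    rw [hγ h x1] at h3
    have h4 : F x1 * (γ (g * h) : E) = F x1 * ((γ h : E) * (γ g : E)) := by
      rw [← h1, ← mul_assoc]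
      exact h3
    apply Subtype.ext
    rw [Subgroup.coe_mul]
    exact mul_left_cancel h4
  let φ : G →* Γ := MonoidHom.mk' (fun g => (γ g)⁻¹) (by
    intro g h
    rw [hmul, mul_inv_rev])
  refine ⟨φ, ?_⟩
  -- the range of `F`
  have hcomp : IsCompact (Set.range F) := by
    have h1 : Set.range F = F '' {x : X4 | ‖x.1‖ = 1} := by
      apply Set.Subset.antisymm
      · rintro _ ⟨x, rfl⟩
        have hx : 0 < ‖x.1‖ := norm_pos_iff.mpr x.2
        refine ⟨⟨‖x.1‖⁻¹ • x.1, smul_ne_zero (inv_pos.mpr hx).ne' x.2⟩, ?_,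
          hsc _ (inv_pos.mpr hx) x⟩
        change ‖‖x.1‖⁻¹ • x.1‖ = 1
        rw [norm_smul, norm_inv, norm_norm, inv_mul_cancel₀ hx.ne']
      · rintro _ ⟨x, -, rfl⟩
        exact ⟨x, rfl⟩
    rw [h1]
    apply IsCompact.image _ hFc
    rw [Subtype.isCompact_iff]
    have h2 : (Subtype.val '' {x : X4 | ‖x.1‖ = 1} : Set V4) = Metric.sphere 0 1 := by
      ext y
      rw [mem_sphere_zero_iff_norm]
      constructor
      · rintro ⟨x, hx, rfl⟩
        exact hx
      · intro hy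
        have : y ≠ 0 := by
          rintro rfl
          rw [norm_zero] at hy
          exact zero_ne_one hy
        exact ⟨⟨y, this⟩, hy, rfl⟩
    rw [h2]
    exact isCompact_sphere 0 1
  have hclosed : IsClosed (Set.range F) := hcomp.isClosed
  have hmem : ∀ (x : X4) (δ : Γ), F x * δ ∈ Set.range F ↔ ∃ g, γ g = δ := by
    intro x δ
    constructor
    · rintro ⟨y, hy⟩
      have h1 : (QuotientGroup.mk (F x) : E ⧸ Γ) = QuotientGroup.mk (F y) := by
        rw [QuotientGroup.eq, hy, inv_mul_cancel_left]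
        exact δ.2
      obtain ⟨g, hg, c, hc, h2⟩ := (hrel x y).mp h1
      refine ⟨⟨g, hg⟩, ?_⟩
      have h3 : F y = F x * γ ⟨g, hg⟩ := by
        rw [← hγ ⟨g, hg⟩ x, ← hsc c hc ⟨act g x.1, act_ne _ x.2⟩]
        congr 1
        exact Subtype.ext h2
      rw [hy] at h3
      exact (Subtype.ext (mul_left_cancel h3)).symm
    · rintro ⟨g, rfl⟩
      exact ⟨_, hγ g x⟩
  have hopen : IsOpen (Set.range F) := by
    rw [← isClosed_compl_iff]
    have h1 : (Set.range F)ᶜ = ⋃ δ ∈ {δ : Γ | ¬ ∃ g, γ g = δ}, (fun e : E => e * δ) '' Set.range F := by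
      ext e
      rw [Set.mem_iUnion₂]
      constructor
      · intro he
        obtain ⟨q, hq⟩ := Quotient.exists_rep (Φ.symm (QuotientGroup.mk e))
        have h2 : (QuotientGroup.mk (F q) : E ⧸ Γ) = QuotientGroup.mk e := by
          rw [hF]
          rw [hq, Homeomorph.apply_symm_apply]
        have h3 := QuotientGroup.eq.mp h2
        refine ⟨⟨_, h3⟩, ?_, F q, ⟨q, rfl⟩, ?_⟩
        · intro h4
          apply he
          have h5 := (hmem q ⟨_, h3⟩).mpr h4
          rwa [mul_inv_cancel_left] at h5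
        · change F q * ((F q)⁻¹ * e) = e
          rw [mul_inv_cancel_left]
      · rintro ⟨δ, hδ, _, ⟨x, rfl⟩, rfl⟩ h2
        exact hδ ((hmem x δ).mp h2)
    rw [h1]
    apply Set.Finite.isClosed_biUnion (Set.toFinite _)
    intro δ _
    exact (Homeomorph.mulRight (δ : E)).isClosedMap _ hclosed
  have huniv : Set.range F = Set.univ :=
    IsClopen.eq_univ ⟨hclosed, hopen⟩ ⟨F x1, x1, rfl⟩
  intro δ
  have h1 : F x1 * ((δ⁻¹ : Γ) : E) ∈ Set.range F := by rw [huniv]; trivial
  obtain ⟨g, hg⟩ := (hmem x1 δ⁻¹).mp h1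
  refine ⟨g, ?_⟩
  change (γ g)⁻¹ = δ
  rw [hg, inv_inv]

/-- the unit quaternions are connected -/
theorem preconnected_unit : PreconnectedSpace (unitary ℍ[ℝ]) := by
  have h1 : ((unitary ℍ[ℝ] : Submonoid ℍ[ℝ]) : Set ℍ[ℝ]) = Metric.sphere 0 1 := by
    ext x
    rw [mem_sphere_zero_iff_norm, SetLike.mem_coe, Unitary.mem_iff]
    constructor
    · rintro ⟨h2, -⟩
      have h3 := congrArg norm h2
      rw [norm_mul, norm_star, norm_one] at h3
      nlinarith [norm_nonneg x]
    · intro h2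
      have h3 : Quaternion.normSq x = 1 := by
        rw [Quaternion.normSq_eq_norm_mul_self, h2, one_mul]
      constructor
      · rw [Quaternion.star_mul_self, h3]
        simp
      · rw [Quaternion.self_mul_star, h3]
        simp
  have h2 : IsPreconnected ((unitary ℍ[ℝ] : Submonoid ℍ[ℝ]) : Set ℍ[ℝ]) := by
    rw [h1]
    apply isPreconnected_sphere
    rw [← Module.finrank_eq_rank, Quaternion.finrank_eq_four]
    norm_num
  exact isPreconnected_iff_preconnectedSpace.mp h2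

/-- **Main theorem.** -/
theorem main (G : Subgroup (GL (Fin 4) ℤ)) [Finite G] (Γ : Subgroup (unitary ℍ[ℝ]))
    (e : Γ ≃* SpecialLinearGroup (Fin 2) (ZMod 5)) :
    IsEmpty (Quotient (rel G) ≃ₜ (unitary ℍ[ℝ] ⧸ Γ)) := by
  refine ⟨fun Φ => ?_⟩
  have hfin : Finite Γ := Finite.of_equiv _ e.symm.toEquiv
  have hpre := preconnected_unit
  obtain ⟨φ, hφ⟩ := exists_surj Γ G Φ
  exact no_surj G (e.toMonoidHom.comp φ) (e.surjective.comp hφ)

end Pool.Agent.H51.Poinc
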